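import Pool.Agent.H72.PSV.T2

/-! Board `psv_modules` (MP_3cf473_nt), row FCT: `ρ + 1` elements of degree one of a filtration
satisfy a relation of bounded degree. -/

open Finset

namespace Pool.Agent.H34.PSV

open Pool.Agent.H72.PSV (Filt T_FCT)

section

variable {K F : Type} [Field K] [Field F] [Algebra K F] {ρ c : ℕ}

theorem pow_mem (Φ : Filt K F ρ c) {u w : F} {n : ℕ} (hn : 1 ≤ n) (hu : u ∈ Φ.G 1)
    (hw : w ∈ Φ.G n) (k : ℕ) : u ^ k * w ∈ Φ.G (k + n) := by
  induction k with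
  | zero => simpa using hw
  | succ k ih =>
    have h1 := Φ.mul 1 (k + n) le_rfl (by omega) u hu _ ih
    have e1 : u ^ (k + 1) * w = u * (u ^ k * w) := by ring
    have e2 : k + 1 + n = 1 + (k + n) := by ring
    rw [e1, e2]
    exact h1

theorem prod_mem (Φ : Filt K F ρ c) {m : ℕ} (u : Fin m → F) (hu : ∀ i, u i ∈ Φ.G 1)
    (e : Fin m → ℕ) (S : Finset (Fin m)) :
    ∏ i ∈ S, u i ^ e i ∈ Φ.G (∑ i ∈ S, e i + 1) := by
  classical
  induction S using Finset.induction_on with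
  | empty => simpa using Φ.one
  | insert a S ha ih =>
    rw [Finset.prod_insert ha, Finset.sum_insert ha]
    have h1 := pow_mem Φ (by omega) (hu a) ih (e a)
    rwa [← add_assoc] at h1

end

theorem pf_FCT : T_FCT := by
  intro ρ c
  set T : ℕ := c * (ρ + 2) ^ ρ + 1 with hT
  refine ⟨(ρ + 1) * T, ?_⟩
  intro K F _ _ _ Φ u hu
  have hT1 : 1 ≤ T := by omega
  have hN1 : 1 ≤ (ρ + 1) * T := Nat.mul_pos (by omega) hT1
  have hsum : ∀ m : Fin (ρ + 1) → Fin T, ∑ i, (m i : ℕ) + 1 ≤ (ρ + 1) * T := by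
    intro m
    have h1 : ∑ i, (m i : ℕ) ≤ ∑ _i : Fin (ρ + 1), (T - 1) :=
      Finset.sum_le_sum fun i _ => by have := (m i).2; omega
    rw [Finset.sum_const, Finset.card_univ, Fintype.card_fin, smul_eq_mul] at h1
    have h2 : (ρ + 1) * (T - 1) + 1 ≤ (ρ + 1) * T := by
      obtain ⟨t, ht⟩ : ∃ t, T = t + 1 := ⟨T - 1, by omega⟩
      rw [ht, Nat.add_sub_cancel]
      have : (ρ + 1) * (t + 1) = (ρ + 1) * t + ρ + 1 := by ring
      omega
    omega
  have hmem : ∀ m : Fin (ρ + 1) → Fin T, ∏ i, u i ^ (m i : ℕ) ∈ Φ.G ((ρ + 1) * T) := by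
    intro m
    exact Φ.mono _ _ (by omega) (hsum m) (prod_mem Φ u hu (fun i => (m i : ℕ)) Finset.univ)
  have hfin := Φ.fin _ hN1
  have hdim : Module.finrank K (Φ.G ((ρ + 1) * T)) < Fintype.card (Fin (ρ + 1) → Fin T) := by
    refine lt_of_le_of_lt (Φ.dim _ hN1) ?_
    rw [Fintype.card_fun, Fintype.card_fin, Fintype.card_fin]
    have h1 : (ρ + 1) * T + 1 ≤ (ρ + 2) * T := by
      have : (ρ + 2) * T = (ρ + 1) * T + T := by ring
      omega
    calc c * ((ρ + 1) * T + 1) ^ ρ ≤ c * ((ρ + 2) * T) ^ ρ :=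
          Nat.mul_le_mul_left _ (Nat.pow_le_pow_left h1 _)
      _ = c * (ρ + 2) ^ ρ * T ^ ρ := by rw [mul_pow]; ring
      _ < T * T ^ ρ := Nat.mul_lt_mul_of_pos_right (by omega) (Nat.pow_pos hT1)
      _ = T ^ (ρ + 1) := by ring
  set f : (Fin (ρ + 1) → Fin T) → Φ.G ((ρ + 1) * T) :=
    fun m => ⟨∏ i, u i ^ (m i : ℕ), hmem m⟩ with hf
  have hli : ¬ LinearIndependent K f := fun h => by
    have := h.fintype_card_le_finrank
    omega
  rw [Fintype.not_linearIndependent_iff] at hli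
  obtain ⟨g, hg, m0, hm0⟩ := hli
  have hg' : ∑ m, g m • ∏ i, u i ^ (m i : ℕ) = 0 := by
    have h1 := congrArg Subtype.val hg
    rw [AddSubmonoidClass.coe_finsetSum] at h1
    exact h1
  set mon : (Fin (ρ + 1) → Fin T) → (Fin (ρ + 1) →₀ ℕ) :=
    fun m => Finsupp.equivFunOnFinite.symm fun i => (m i : ℕ) with hmon
  have hinj : Function.Injective mon := by
    intro m m' h
    funext i
    have h1 := DFunLike.congr_fun h i
    exact Fin.ext h1
  refine ⟨∑ m, MvPolynomial.monomial (mon m) (g m), ?_, ?_, ?_⟩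
  · intro h0
    apply hm0
    have h1 := congrArg (MvPolynomial.coeff (mon m0)) h0
    rw [MvPolynomial.coeff_sum, MvPolynomial.coeff_zero] at h1
    rw [← h1, Finset.sum_eq_single m0]
    · rw [MvPolynomial.coeff_monomial, if_pos rfl]
    · intro m _ hm
      rw [MvPolynomial.coeff_monomial, if_neg fun h => hm (hinj h)]
    · exact fun h => absurd (Finset.mem_univ m0) h
  · refine MvPolynomial.totalDegree_finsetSum_le fun m _ => ?_
    refine (MvPolynomial.totalDegree_monomial_le _ _).trans ?_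
    rw [Finsupp.sum_fintype _ _ (fun _ => rfl)]
    have := hsum m
    have e : ∑ i, id ((mon m) i) = ∑ i, (m i : ℕ) := rfl
    rw [e]
    omega
  · rw [map_sum, ← hg']
    refine Finset.sum_congr rfl fun m _ => ?_
    rw [MvPolynomial.aeval_monomial, Algebra.smul_def, Finsupp.prod_fintype _ _
      (fun i => pow_zero _)]
    rfl

end Pool.Agent.H34.PSV
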